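import Pool.Agent.R663.GB.WtB

/-!
MP_78bba1_al (Alperin's weight conjecture).

`E` is a finite group, `G` a normal subgroup, `B` a `p`-block of `G`. For a chain `σ` of nontrivial
`p`-subgroups of `G` let `E_σ` be its stabiliser in `E` and `G_σ = G ∩ E_σ` that in `G`.

* `IsPChain`, `chainStabilizer` (Pool/Agent/Y63/KR/Defs.lean): chains and their stabilisers.
* `relSum p G f` (Pool/Agent/R663/GA/EqV.lean) is `∑_σ (-1)^|σ| f(E_σ)`, over representatives of the
  `G`-classes of chains of nontrivial `p`-subgroups of `G`, the empty chain included.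
* `Induces red G J B ψ` (same file): `bl(ψ)^G = B` for `ψ ∈ Irr(G ∩ J)`, with the reduced central
  character `centralValue red ψ` of Pool/Agent/Y63/NV/Defs.lean.
* `StableUnder G J e τ ψ` (same file), `J = E_σ`: an element `a` of `E_σ` in the coset `Ge` satisfies
  `ψ(a x a⁻¹) = τ(ψ(x))`.
* `numInv red G J B e τ` (same file): the number of `ψ ∈ Irr(G_σ)` with `bl(ψ)^G = B` stable under
  `(eG, τ)`.
* `IsIrrTrace φ` (Pool/Agent/Y63/NV/Defs.lean): `φ : H → F` is the trace of a simple `F[H]`-module.
  As `F` is algebraically closed these functions correspond to the simple modules.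
* `IndB G J B φ` (Pool/Agent/R663/GB/MainB.lean): `bl(φ)^G = B`: every central element `f` of `F[G]`,
  restricted to `G ∩ J`, acts as `B(f)` on the module with trace `φ`.
* `StableB G J e q φ` (Pool/Agent/R663/GB/EqB.lean), `J = E_σ`: an element `a` of `E_σ` in the coset
  `Ge` satisfies `φ(a x a⁻¹) = φ(x)^q`.
* `numB G J B e q` (same file): the number of `φ ∈ IBr(G_σ)` with `bl(φ)^G = B` stable under `eG`
  and the automorphism `t ↦ t^q` of `F`.
* `numWt p red G J B e τ` (Pool/Agent/R663/GB/WtB.lean): the number of the `G_σ`-classes of weights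
  `(Q, w)` of `G_σ` with `bl(w)^G = B` stable under `(eG, τ)`; here `w` is a character of
  `N_{G_σ}(Q)`, inflated from a defect zero character of `N_{G_σ}(Q)/Q` (`IsWt`,
  Pool/Agent/Y63/NV/Defs.lean), and the class of `(Q, w)` is stable if an element of `N_{E_σ}(Q)` in
  the coset `Ge` maps `w` to `τ(w)`.
* `dzSt p red G ⊤ ⊥ B e τ` (same file): the number of the irreducible characters of `G` of
  `p`-defect zero in `B` stable under `(eG, τ)`.

For the empty chain `E_σ = E` (the subgroup `⊤` of `E`), and `numB G ⊤ B e (p ^ i)` and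
`numWt p red G ⊤ B e τ` are the two sides of the weight conjecture for `B`, restricted to the
stable Brauer characters and weights; for `e = 1`, `τ = 1`, `i = 0` they are `l(B)` and the number
of classes of weights of `B`.
-/

set_option autoImplicit false

namespace Pool.Agent.Results.MP_78bba1_al.GaloisEquivariantForm

open Pool.Agent.Y63.KR Pool.Agent.R663.GA Pool.Agent.R663.GB

/-- Let `E` be a finite group, `G` a normal subgroup, `B` a `p`-block of `G` (or any function),
`e ∈ E`, and `τ` an automorphism of the complex numbers which maps the roots of unity of order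
dividing the `p'`-part of `|G|` to their `p^i`-th powers.
1. The alternating sums over the `G`-classes of chains `σ` of the numbers of the `ψ ∈ Irr(G_σ)` with
`bl(ψ)^G = B` stable under `(eG, τ)`, and of the `φ ∈ IBr(G_σ)` with `bl(φ)^G = B` stable under `eG`
and `t ↦ t^(p^i)`, are equal.
2. The alternating sum of the numbers of stable classes of weights of the `G_σ` in `B` is the number
of the stable defect zero characters of `G` in `B`.
3. If for all nonempty chains `σ` the group `G_σ` has as many stable Brauer characters in `B` as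
stable classes of weights in `B`, then for `G` the difference of these numbers is the alternating
sum of the numbers of the stable `ψ ∈ Irr(G_σ)` with `bl(ψ)^G = B` minus the number of the stable
defect zero characters of `G` in `B`. -/
theorem result (p : ℕ) [Fact p.Prime] (F : Type) [Field F] [IsAlgClosed F] [CharP F p]
    (red : integralClosure ℤ ℂ →+* F) (E : Type) [Group E] [Finite E] (G : Subgroup E) [G.Normal]
    (B : (G → F) → F) (e : E) (τ : ℂ ≃+* ℂ) (i : ℕ)
    (h : ∀ z : ℂ, z ^ (Nat.card G / p ^ (Nat.card G).factorization p) = 1 → τ z = z ^ p ^ i) :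
    (relSum p G (fun J => (numInv red G J B e τ : ℤ)) =
      relSum p G (fun J => (numB G J B e (p ^ i) : ℤ))) ∧
    (relSum p G (fun J => (numWt p red G J B e τ : ℤ)) = (dzSt p red G ⊤ ⊥ B e τ : ℤ)) ∧
    ((∀ σ : Set (Subgroup E), IsPChain p σ → (∀ P ∈ σ, P ≤ G) → σ.Nonempty →
        numB G (chainStabilizer σ) B e (p ^ i) = numWt p red G (chainStabilizer σ) B e τ) →
      (numB G ⊤ B e (p ^ i) : ℤ) - (numWt p red G ⊤ B e τ : ℤ) =
        relSum p G (fun J => (numInv red G J B e τ : ℤ)) - (dzSt p red G ⊤ ⊥ B e τ : ℤ)) :=
  ⟨rel_kl red B e τ i h, rel_wt red inferInstance B e τ, awc_formula red B e τ i h⟩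

end Pool.Agent.Results.MP_78bba1_al.GaloisEquivariantForm
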