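import Pool.Agent.R615.LV.Surf

/-!
# Alperin's weight conjecture and homomorphisms from surface groups

For a finite group `G` and `g ≥ 1`, `surfaceChi p g G` is the reduced equivariant Euler
characteristic `|G|⁻¹ ∑_φ (χ (S^φ) - 1)` of the poset `S` of nontrivial `p`-subgroups of `G`, where
`φ` runs over the homomorphisms from the fundamental group of the closed orientable surface of genus
`g` to `G` and `S^φ` consists of the subgroups normalised by the image of `φ`.  For `g = 1` this is
the sum over commuting pairs in the conjecture of Knörr and Robinson.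

For `g ≥ 2` tending to `1` `p`-adically (and with `p - 1 ∣ g - 1`) these numbers tend to `- z_p (G)`,
the number of characters of defect zero.  Alperin's weight conjecture says that they tend to the
number for `g = 1`.
-/

set_option autoImplicit false

namespace Pool.Agent.Results.MP_78bba1_al.SurfaceGroups

open Pool.Agent.Y63.KR (surfaceWord eulerChar fixedPoset coords surfaceChi)
open Pool.Agent.Y63.AWC (numDefectZero numWeights numRegularClasses)
open Pool.Agent.Y63.NV (Closed Reduced)

/-- The numbers for genus `g` and genus `1` are congruent modulo `p ^ (N + 1)`. -/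
def Congruent (p N g : ℕ) (G : Type) [Group G] : Prop :=
  ∃ c : ℤ, surfaceChi p g G - surfaceChi p 1 G = (p : ℚ) ^ (N + 1) * c

/-- `l(G)` is the number of classes of weights of `G` (the sum of Alperin's conjecture over all
blocks). -/
def WeightConjecture (p : ℕ) (G : Type) [Group G] : Prop :=
  numRegularClasses p G = numWeights p G

/-- Let `p` be a prime.
1. For all finite groups `G` and all `g ≥ 2` such that `p ^ N * (p - 1)` divides `g - 1`, the number
`surfaceChi p g G + z_p (G)` is an integral multiple of `p ^ (N + 1)`.

Let `X` be a class of groups closed under isomorphisms, subgroups and quotients by normal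
`p`-subgroups.
2. If the weight conjecture holds for all finite groups with a normal subgroup in `X` of `p`-power
index, then `surfaceChi p g H` and `surfaceChi p 1 H` are congruent modulo `p ^ (N + 1)` for all
finite groups `H` in `X` and all `g ≥ 2` such that `p ^ N * (p - 1)` divides `g - 1`.
3. If for every finite group `H` in `X` without normal subgroups of index `p` and without nontrivial
normal `p`-subgroups, and for every `N`, this congruence holds for one such `g`, then the weight
conjecture holds for all finite groups with a normal subgroup in `X` of `p`-power index. -/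
theorem result (p : ℕ) [Fact p.Prime] :
    (∀ (G : Type) [Group G] [Finite G] (N g : ℕ), 2 ≤ g → p ^ N * (p - 1) ∣ g - 1 →
      ∃ c : ℤ, surfaceChi p g G + (numDefectZero p G : ℚ) = (p : ℚ) ^ (N + 1) * c) ∧
    ∀ X : (∀ (H : Type) [Group H], Prop), Closed p X →
      ((∀ (Γ : Type) [Group Γ] [Finite Γ] (G : Subgroup Γ) [G.Normal], X G →
          IsPGroup p (Γ ⧸ G) → WeightConjecture p Γ) →
        ∀ (H : Type) [Group H] [Finite H], X H → ∀ N g : ℕ, 2 ≤ g →
          p ^ N * (p - 1) ∣ g - 1 → Congruent p N g H) ∧
      ((∀ (H : Type) [Group H] [Finite H], X H → Reduced p H → ∀ N : ℕ, ∃ g : ℕ, 2 ≤ g ∧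
          p ^ N * (p - 1) ∣ g - 1 ∧ Congruent p N g H) →
        ∀ (Γ : Type) [Group Γ] [Finite Γ] (G : Subgroup Γ) [G.Normal], X G →
          IsPGroup p (Γ ⧸ G) → WeightConjecture p Γ) :=
  ⟨fun _ _ _ _ _ hg hd => Pool.Agent.R615.LV.chi_mod hg hd,
    fun X hX => Pool.Agent.R615.LV.awc_surface p X hX⟩

end Pool.Agent.Results.MP_78bba1_al.SurfaceGroups
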