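import Pool.Agent.R893.TP2.FinAWC
import Pool.Agent.R893.TP2.RadA
import Pool.Agent.R893.TP2.DzA
import Pool.Agent.R893.TP2.LocA
import Pool.Agent.R893.TP2.WtA
import Pool.Agent.R893.TP2.RegA

/-!
# Alperin's weight conjecture (summed over blocks) is equivalent to its asymptotic form
-/

namespace Pool.Agent.Results.MP_78bba1_al.TensorPowerGap

open Pool.Agent.Y63.AWC Pool.Agent.R893.TP2

/-- Let `p` be a prime and `X` a class of groups closed under `G ↦ G × G`, for instance all groups.
Write `w(G)` for the number of `p`-weights of `G` up to conjugacy and `l(G)` for the number of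
conjugacy classes of `p`-regular elements. Then `w(G) ≤ l(G)` for all finite groups `G ≠ 1` in `X`
if and only if for every `ε > 0` there are `C, N` such that `w(G) ≤ C |G|^ε l(G)` for all finite
`G` in `X` with `|G| ≥ N`; the same for `l(G) ≤ w(G)`; and `w(G) = l(G)` for all these `G` if and
only if for every `ε > 0` both inequalities hold up to a factor `C |G|^ε`. Moreover `w` and `l` are
multiplicative on direct products. -/
theorem result (p : ℕ) (hp : p.Prime)
    (X : ∀ (G : Type) [Group G], Prop) (hX : ∀ (G : Type) [Group G], X G → X (G × G)) :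
    (((∀ ε : ℝ, 0 < ε → ∃ C : ℝ, ∃ N : ℕ, ∀ (G : Type) [Group G] [Finite G], X G →
        N ≤ Nat.card G →
        (numWeights p G : ℝ) ≤ C * (Nat.card G : ℝ) ^ ε * (numRegularClasses p G : ℝ)) ↔
      (∀ (G : Type) [Group G] [Finite G], X G → 1 < Nat.card G →
        numWeights p G ≤ numRegularClasses p G)) ∧
    ((∀ ε : ℝ, 0 < ε → ∃ C : ℝ, ∃ N : ℕ, ∀ (G : Type) [Group G] [Finite G], X G →
        N ≤ Nat.card G →
        (numRegularClasses p G : ℝ) ≤ C * (Nat.card G : ℝ) ^ ε * (numWeights p G : ℝ)) ↔
      (∀ (G : Type) [Group G] [Finite G], X G → 1 < Nat.card G →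
        numRegularClasses p G ≤ numWeights p G)) ∧
    ((∀ ε : ℝ, 0 < ε → ∃ C : ℝ, ∃ N : ℕ, ∀ (G : Type) [Group G] [Finite G], X G →
        N ≤ Nat.card G →
        (numWeights p G : ℝ) ≤ C * (Nat.card G : ℝ) ^ ε * (numRegularClasses p G : ℝ) ∧
        (numRegularClasses p G : ℝ) ≤ C * (Nat.card G : ℝ) ^ ε * (numWeights p G : ℝ)) ↔
      (∀ (G : Type) [Group G] [Finite G], X G → 1 < Nat.card G →
        numWeights p G = numRegularClasses p G))) ∧
    (∀ (G H : Type) [Group G] [Group H] [Finite G] [Finite H],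
      numWeights p (G × H) = numWeights p G * numWeights p H ∧
      numRegularClasses p (G × H) = numRegularClasses p G * numRegularClasses p H) := by
  have hwt : S_WTP := wtA radA (locA dzA)
  exact ⟨awc_final hwt regA p hp X hX, fun G H _ _ _ _ => ⟨hwt G H p hp, regA G H p hp⟩⟩

end Pool.Agent.Results.MP_78bba1_al.TensorPowerGap
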